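import Pool.Agent.Y843.HS.Top
import Pool.Agent.Helper256.KM.Mertens

set_option autoImplicit false

/-!
# Szemerédi's theorem for rough constellations, with a prescribed factor of the common difference

`E` is a finite set of shifts. `Rough E t q` : the numbers `q + e`, `e ∈ E`, have no prime factor `≤ t`.
Every sufficiently dense set of integers `q` with this property in a window `(A, A + L]` contains long
progressions whose common difference is `m d` with `d ≤ (log n) ^ B`, uniformly in `m ≤ L / n ^ θ`.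
-/

namespace Pool.Agent.H52SZ

open Finset Filter
open Pool.Agent.Y843.HS (Pr VV Pr_mem Pr_prime card_res log_ge card_pull)

/-- the numbers `q + e`, `e ∈ E`, have no prime factor `≤ t` -/
def Rough (E : Finset ℤ) (t : ℝ) (q : ℕ) : Prop :=
  ∀ e ∈ E, ∀ l : ℕ, l.Prime → (l : ℝ) ≤ t → ¬ (l : ℤ) ∣ (q : ℤ) + e

open Classical in
/-- the classes modulo `p` which are avoided -/
noncomputable def Z0 (E : Finset ℤ) (p : ℕ) : Finset ℕ :=
  (range p).filter (fun c => ∃ e ∈ E, (p : ℤ) ∣ (c : ℤ) + e)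

/-- the sieve product -/
noncomputable def VE (E : Finset ℤ) (Y : ℕ) : ℝ := ∏ p ∈ Pr 0 Y, (1 - ((Z0 E p).card : ℝ) / p)

lemma Z0_lt {E : Finset ℤ} {p c : ℕ} (hc : c ∈ Z0 E p) : c < p := by
  classical
  unfold Z0 at hc
  exact mem_range.1 (mem_filter.1 hc).1

lemma mod_mem {E : Finset ℤ} {p q : ℕ} (hp : 0 < p) : q % p ∈ Z0 E p ↔ ∃ e ∈ E, (p : ℤ) ∣ (q : ℤ) + e := by
  classical
  unfold Z0
  rw [mem_filter, mem_range]
  have key : ∀ e : ℤ, (p : ℤ) ∣ ((q % p : ℕ) : ℤ) + e ↔ (p : ℤ) ∣ (q : ℤ) + e := by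
    intro e
    have h1 : (q : ℤ) + e = (((q % p : ℕ) : ℤ) + e) + p * ((q / p : ℕ) : ℤ) := by
      have h2 : ((q % p : ℕ) : ℤ) + p * ((q / p : ℕ) : ℤ) = q := by exact_mod_cast Nat.mod_add_div q p
      linarith
    rw [h1]
    exact (Int.dvd_add_left (Dvd.intro _ rfl)).symm
  constructor
  · rintro ⟨-, e, he, h⟩
    exact ⟨e, he, (key e).1 h⟩
  · rintro ⟨e, he, h⟩
    exact ⟨Nat.mod_lt _ hp, e, he, (key e).2 h⟩

lemma Z0_card_le {E : Finset ℤ} {p : ℕ} (hp : 0 < p) : (Z0 E p).card ≤ E.card := by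
  classical
  have h : Z0 E p ⊆ E.image (fun e => ((-e) % p).toNat) := by
    intro c hc
    have hlt := Z0_lt hc
    unfold Z0 at hc
    rw [mem_filter] at hc
    obtain ⟨-, e, he, hd⟩ := hc
    rw [mem_image]
    refine ⟨e, he, ?_⟩
    have h1 : (-e) % (p : ℤ) = (c : ℤ) % p := by
      apply Int.ModEq.symm
      rw [Int.modEq_iff_dvd]
      have : (-e : ℤ) - c = -((c : ℤ) + e) := by ring
      rw [this]
      exact (dvd_neg).2 hd
    rw [h1, Int.emod_eq_of_lt (by positivity) (by exact_mod_cast hlt)]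
    simp
  exact (card_le_card h).trans card_image_le

lemma le_Z0_card {E : Finset ℤ} {P p : ℕ} (hE : ∀ e ∈ E, ∀ e' ∈ E, |e - e'| ≤ P) (hp : P < p) :
    E.card ≤ (Z0 E p).card := by
  classical
  have hp0 : (0 : ℤ) < p := by exact_mod_cast (Nat.zero_le P).trans_lt hp
  have h : E.image (fun e => ((-e) % p).toNat) ⊆ Z0 E p := by
    intro c hc
    rw [mem_image] at hc
    obtain ⟨e, he, rfl⟩ := hc
    unfold Z0
    have h1 := Int.emod_nonneg (-e) hp0.ne'
    have h2 := Int.emod_lt_of_pos (-e) hp0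
    have h3 : (((-e) % p).toNat : ℤ) = (-e) % p := Int.toNat_of_nonneg h1
    rw [mem_filter, mem_range]
    refine ⟨by omega, e, he, ?_⟩
    rw [h3]
    have h4 : (-e) % (p : ℤ) + e = -(p * ((-e) / p)) := by
      have := Int.emod_add_mul_ediv (-e) p
      linarith
    rw [h4]
    exact (dvd_neg).2 (Dvd.intro _ rfl)
  refine le_trans ?_ (card_le_card h)
  rw [card_image_of_injOn]
  intro e he e' he' hee
  rw [mem_coe] at he he'
  have h1 := Int.emod_nonneg (-e) hp0.ne'
  have h1' := Int.emod_nonneg (-e') hp0.ne'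
  have h2 : (-e) % (p : ℤ) = (-e') % p := by
    have h3 : (((-e) % p).toNat : ℤ) = (((-e') % p).toNat : ℤ) := by
      have : ((-e) % p).toNat = ((-e') % p).toNat := hee
      exact_mod_cast this
    rwa [Int.toNat_of_nonneg h1, Int.toNat_of_nonneg h1'] at h3
  have h4 : (p : ℤ) ∣ (-e') - (-e) := Int.ModEq.dvd h2
  have h5 : (-e' : ℤ) - (-e) = e - e' := by ring
  rw [h5] at h4
  have h6 := Int.eq_zero_of_abs_lt_dvd h4 (lt_of_le_of_lt (hE e he e' he') (by exact_mod_cast hp))
  linarith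

/-- upper bound for the sieve product -/
theorem VE_le (E : Finset ℤ) : ∃ C : ℝ, 0 < C ∧ ∀ Y : ℕ, 3 ≤ Y → VE E Y ≤ C / Real.log Y ^ E.card := by
  classical
  obtain ⟨C, hC⟩ := Pool.Agent.Helper256.KM.mertens_inv
  obtain ⟨P, hP⟩ : ∃ P : ℕ, ∀ e ∈ E, ∀ e' ∈ E, |e - e'| ≤ P := by
    refine ⟨∑ e ∈ E, ∑ e' ∈ E, (|e - e'|).toNat, fun e he e' he' => ?_⟩
    have h1 : (|e - e'|).toNat ≤ ∑ e' ∈ E, (|e - e'|).toNat :=
      single_le_sum (f := fun e' => (|e - e'|).toNat) (fun _ _ => Nat.zero_le _) he'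
    have h2 : ∑ e' ∈ E, (|e - e'|).toNat ≤ ∑ e ∈ E, ∑ e' ∈ E, (|e - e'|).toNat :=
      single_le_sum (f := fun e => ∑ e' ∈ E, (|e - e'|).toNat) (fun _ _ => Nat.zero_le _) he
    have h3 : (((|e - e'|).toNat : ℕ) : ℤ) = |e - e'| := Int.toNat_of_nonneg (abs_nonneg _)
    rw [← h3]
    exact_mod_cast h1.trans h2
  refine ⟨Real.exp (E.card * (C + P)), Real.exp_pos _, fun Y hY => ?_⟩
  have hlY : 0 < Real.log Y := Real.log_pos (by exact_mod_cast (by omega : 1 < Y))
  have h1 : VE E Y ≤ Real.exp (-∑ p ∈ Pr 0 Y, ((Z0 E p).card : ℝ) / p) := by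
    unfold VE
    rw [← sum_neg_distrib, Real.exp_sum]
    apply Finset.prod_le_prod
    · intro p hp
      have hp0 := (Pr_prime hp).pos
      have h2 : (Z0 E p).card ≤ p := by
        have : Z0 E p ⊆ range p := fun c hc => mem_range.2 (Z0_lt hc)
        have := card_le_card this
        rwa [card_range] at this
      have h3 : ((Z0 E p).card : ℝ) / p ≤ 1 := by
        rw [div_le_one (by exact_mod_cast hp0)]
        exact_mod_cast h2
      linarith
    · intro p _
      have := Real.add_one_le_exp (-(((Z0 E p).card : ℝ) / p))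
      linarith
  have h2 : (E.card : ℝ) * (Real.log (Real.log Y) - (C + P)) ≤ ∑ p ∈ Pr 0 Y, ((Z0 E p).card : ℝ) / p := by
    have h3 : ∑ p ∈ Pr 0 Y, (1 : ℝ) / p ≤ P + ∑ p ∈ (Pr 0 Y).filter (fun p => P < p), (1 : ℝ) / p := by
      rw [← sum_filter_add_sum_filter_not (Pr 0 Y) (fun p => P < p), add_comm]
      have h4 : ∑ p ∈ (Pr 0 Y).filter (fun p => ¬ P < p), (1 : ℝ) / p ≤ P := by
        calc ∑ p ∈ (Pr 0 Y).filter (fun p => ¬ P < p), (1 : ℝ) / p
            ≤ ∑ p ∈ (Pr 0 Y).filter (fun p => ¬ P < p), (1 : ℝ) := by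
              apply sum_le_sum
              intro p hp
              have hp0 := (Pr_prime (mem_filter.1 hp).1).one_lt
              rw [div_le_one (by exact_mod_cast (by omega : 0 < p))]
              exact_mod_cast hp0.le
          _ = (((Pr 0 Y).filter (fun p => ¬ P < p)).card : ℝ) := by rw [sum_const, nsmul_eq_mul, mul_one]
          _ ≤ ((Ioc 0 P).card : ℝ) := by
              apply Nat.cast_le.2
              apply card_le_card
              intro p hp
              rw [mem_filter, Pr_mem] at hp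
              rw [mem_Ioc]
              omega
          _ = P := by rw [Nat.card_Ioc]; simp
      linarith
    have h4 : Pr 0 Y = (Icc 1 Y).filter Nat.Prime := by
      ext p
      rw [Pr_mem, mem_filter, mem_Icc]
      exact ⟨fun h => ⟨by omega, h.2⟩, fun h => ⟨by omega, h.2⟩⟩
    have h5 := (abs_le.1 (hC Y hY)).1
    rw [← h4] at h5
    have h6 : (E.card : ℝ) * ∑ p ∈ (Pr 0 Y).filter (fun p => P < p), (1 : ℝ) / p ≤
        ∑ p ∈ Pr 0 Y, ((Z0 E p).card : ℝ) / p := by
      rw [mul_sum]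
      refine le_trans ?_ (sum_le_sum_of_subset_of_nonneg (filter_subset (fun p => P < p) (Pr 0 Y))
        (fun _ _ _ => by positivity))
      apply sum_le_sum
      intro p hp
      rw [mul_one_div]
      apply div_le_div_of_nonneg_right _ (by positivity)
      exact_mod_cast le_Z0_card hP (mem_filter.1 hp).2
    refine le_trans ?_ h6
    apply mul_le_mul_of_nonneg_left _ (by positivity)
    linarith
  refine h1.trans ?_
  calc Real.exp (-∑ p ∈ Pr 0 Y, ((Z0 E p).card : ℝ) / p)
      ≤ Real.exp (E.card * (C + P) - E.card * Real.log (Real.log Y)) := by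
        apply Real.exp_le_exp.2
        linarith
    _ = Real.exp (E.card * (C + P)) / Real.log Y ^ E.card := by
        rw [Real.exp_sub, Real.exp_nat_mul, Real.exp_nat_mul, Real.exp_log hlY]

end Pool.Agent.H52SZ
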