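import Pool.Agent.H52SZ.A

set_option autoImplicit false

/-!
# Szemerédi's theorem for rough constellations, with a prescribed factor of the common difference
-/

namespace Pool.Agent.H52SZ

open Finset Filter
open Pool.Agent.Y843.HS (Pr VV Pr_mem Pr_prime card_res log_ge card_pull)

/-- the classes modulo `p` for the class `b` modulo `m` -/
noncomputable def Zc (E : Finset ℤ) (m b p : ℕ) : Finset ℕ :=
  if p ∣ m then ∅ else (range p).filter (fun c => (b + m * (c + (p - 1))) % p ∈ Z0 E p)

lemma Zc_lt {E : Finset ℤ} {m b p c : ℕ} (hc : c ∈ Zc E m b p) : c < p := by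
  unfold Zc at hc
  split_ifs at hc with h
  · simp at hc
  · exact mem_range.1 (mem_filter.1 hc).1

lemma Zc_card {E : Finset ℤ} {m b p : ℕ} (hp : p.Prime) :
    (Zc E m b p).card = if p ∣ m then 0 else (Z0 E p).card := by
  unfold Zc
  split_ifs with h
  · rfl
  · exact card_pull hp h (fun c hc => Z0_lt hc)

/-- the prime divisors of `m` up to `Y` -/
def Pm (m Y : ℕ) : Finset ℕ := (Pr 0 Y).filter (fun p => p ∣ m)

open Classical in
/-- the admissible classes modulo `m` -/
noncomputable def adm (E : Finset ℤ) (m Y : ℕ) : Finset ℕ :=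
  (range m).filter (fun a => ∀ p ∈ Pm m Y, a % p ∉ Z0 E p)

lemma adm_card (E : Finset ℤ) {m Y : ℕ} (hm : 1 ≤ m) :
    ((adm E m Y).card : ℝ) ≤ m * ∏ p ∈ Pm m Y, (1 - ((Z0 E p).card : ℝ) / p) := by
  classical
  set P := Pm m Y with hP
  have hPp : ∀ p ∈ P, p.Prime := fun p hp => Pr_prime (mem_filter.1 hp).1
  set W := ∏ p ∈ P, p with hW
  have hWm : W ∣ m := by
    rw [hW]
    apply Finset.prod_primes_dvd
    · intro p hp; exact (hPp p hp).prime
    · intro p hp; exact (mem_filter.1 hp).2
  have hW1 : 1 ≤ W := Nat.one_le_iff_ne_zero.2 (prod_ne_zero_iff.2 fun p hp => (hPp p hp).ne_zero)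
  obtain ⟨m', hm'⟩ := hWm
  have hcount := card_res P hPp (fun p => (range p).filter (fun c => c ∉ Z0 E p))
    (fun p _ c hc => mem_range.1 (mem_filter.1 hc).1)
  set adW := (range W).filter (fun a => ∀ p ∈ P, a % p ∈ (range p).filter (fun c => c ∉ Z0 E p)) with hadW
  have h1 : (adm E m Y).card ≤ (adW ×ˢ range m').card := by
    apply card_le_card_of_injOn (fun a => (a % W, a / W))
    · intro a ha
      unfold adm at ha
      rw [mem_coe, mem_filter, mem_range] at ha
      rw [mem_coe, mem_product, mem_range, hadW, mem_filter, mem_range]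
      refine ⟨⟨Nat.mod_lt _ hW1, ?_⟩, ?_⟩
      · intro p hp
        have hpW : p ∣ W := dvd_prod_of_mem (fun p => p) hp
        change (a % W) % p ∈ _
        rw [Nat.mod_mod_of_dvd _ hpW, mem_filter, mem_range]
        exact ⟨Nat.mod_lt _ (hPp p hp).pos, ha.2 p hp⟩
      · change a / W < m'
        rw [Nat.div_lt_iff_lt_mul hW1, mul_comm, ← hm']
        exact ha.1
    · intro a _ c _ hac
      have h2 : a % W = c % W := (Prod.ext_iff.1 hac).1
      have h3 : a / W = c / W := (Prod.ext_iff.1 hac).2
      rw [← Nat.mod_add_div a W, ← Nat.mod_add_div c W, h2, h3]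
  rw [card_product, card_range, hcount] at h1
  have h2 : ((adm E m Y).card : ℝ) ≤ (∏ p ∈ P, (((range p).filter (fun c => c ∉ Z0 E p)).card : ℝ)) * m' := by
    exact_mod_cast h1
  refine h2.trans (le_of_eq ?_)
  have h3 : (m : ℝ) = (∏ p ∈ P, (p : ℝ)) * m' := by
    rw [hm']
    push_cast
    rw [hW]
    push_cast
    rfl
  rw [h3, mul_right_comm, ← prod_mul_distrib]
  congr 1
  apply prod_congr rfl
  intro p hp
  have hp0 : (0 : ℝ) < p := by exact_mod_cast (hPp p hp).pos
  have h4 : ((range p).filter (fun c => c ∉ Z0 E p)).card + (Z0 E p).card = p := by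
    have h5 : (range p).filter (fun c => c ∉ Z0 E p) = range p \ Z0 E p := by
      ext c; rw [mem_filter, Finset.mem_sdiff]
    have h6 : Z0 E p ⊆ range p := fun c hc => mem_range.2 (Z0_lt hc)
    rw [h5]
    have := card_sdiff_add_card_eq_card h6
    rwa [card_range] at this
  have h5 : (((range p).filter (fun c => c ∉ Z0 E p)).card : ℝ) + ((Z0 E p).card : ℝ) = p := by
    exact_mod_cast h4
  field_simp
  linarith

/-- the product of the densities -/
lemma adm_VV (E : Finset ℤ) {m b Y : ℕ} (hm : 1 ≤ m) :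
    ((adm E m Y).card : ℝ) * VV (Zc E m b) 0 Y ≤ m * VE E Y := by
  classical
  have h0 : 0 ≤ VV (Zc E m b) 0 Y := by
    unfold VV
    apply prod_nonneg
    intro p hp
    have hp0 := (Pr_prime hp).pos
    have h2 : (Zc E m b p).card ≤ p := by
      have : Zc E m b p ⊆ range p := fun c hc => mem_range.2 (Zc_lt hc)
      have := card_le_card this
      rwa [card_range] at this
    have h3 : ((Zc E m b p).card : ℝ) / p ≤ 1 := by
      rw [div_le_one (by exact_mod_cast hp0)]
      exact_mod_cast h2
    linarith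
  refine (mul_le_mul_of_nonneg_right (adm_card E hm) h0).trans (le_of_eq ?_)
  rw [mul_assoc]
  congr 1
  unfold VV VE Pm
  rw [← prod_filter_mul_prod_filter_not (Pr 0 Y) (fun p => p ∣ m) (fun p => 1 - ((Z0 E p).card : ℝ) / p)]
  congr 1
  rw [prod_filter]
  apply prod_congr rfl
  intro p hp
  rw [Zc_card (Pr_prime hp)]
  split_ifs <;> simp

end Pool.Agent.H52SZ
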