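import Pool.Agent.H52SZ.B

set_option autoImplicit false

/-!
# Szemerédi's theorem for rough constellations: the main theorem
-/

namespace Pool.Agent.H52SZ

open Finset Filter
open Pool.Agent.Y843.HS (Pr VV Pr_mem Pr_prime card_res log_ge card_pull)

/-- the theorem for one class modulo `m`, numerical conditions as hypotheses -/
theorem core (E : Finset ℤ) (k : ℕ) (κ δ C : ℝ) (hC : ∀ Y : ℕ, 3 ≤ Y → VE E Y ≤ C / Real.log Y ^ E.card)
    (hκ : 0 < κ) (hδ : 0 < δ) {B X₀ : ℕ}
    (hfin : ∀ X A : ℕ, X₀ ≤ X →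
      ∀ Z : ℕ → Finset ℕ, (∀ p : ℕ, p.Prime → (p : ℝ) ≤ (X : ℝ) ^ κ →
        (Z p).card ≤ E.card ∧ (Z p).card < p ∧ ∀ c ∈ Z p, c < p) →
      ∀ S : Finset ℕ, S ⊆ Ioc A (A + X) →
        (∀ n ∈ S, ∀ p : ℕ, p.Prime → (p : ℝ) ≤ (X : ℝ) ^ κ → n % p ∉ Z p) →
        δ * X * VV Z 0 ⌊(X : ℝ) ^ κ⌋₊ ≤ S.card →
        ∃ a d : ℕ, 1 ≤ d ∧ (d : ℝ) ≤ Real.log X ^ B ∧ ∀ j < k, a + j * d ∈ S)
    {A L m : ℕ} (hk : 1 ≤ k) (hm : 1 ≤ m) (hmL : m ≤ L) (hX₀ : X₀ ≤ L / m + 2)
    (hY : 3 ≤ ⌊((L / m + 2 : ℕ) : ℝ) ^ κ⌋₊)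
    (S : Finset ℕ) (hSne : S.Nonempty) (hSA : S ⊆ Ioc A (A + L))
    (hS : ∀ q ∈ S, Rough E (((L / m + 2 : ℕ) : ℝ) ^ κ) q)
    (hcard : δ * (3 * L) * (C / Real.log ⌊((L / m + 2 : ℕ) : ℝ) ^ κ⌋₊ ^ E.card) ≤ S.card) :
    ∃ q d : ℕ, 1 ≤ d ∧ (d : ℝ) ≤ Real.log ((L / m + 2 : ℕ) : ℝ) ^ B ∧ ∀ j < k, q + m * d * j ∈ S := by
  classical
  set X := L / m + 2 with hX
  set Y := ⌊(X : ℝ) ^ κ⌋₊ with hYdef
  have hYle : (Y : ℝ) ≤ (X : ℝ) ^ κ := Nat.floor_le (by positivity)
  have hpY : ∀ p : ℕ, (p : ℝ) ≤ (X : ℝ) ^ κ ↔ p ≤ Y := fun p => (Nat.le_floor_iff (by positivity)).symm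
  -- the residues of the elements of `S`
  have hres : ∀ q ∈ S, ∀ p ∈ Pr 0 Y, q % p ∉ Z0 E p := by
    intro q hq p hp hmem
    have hpp := Pr_prime hp
    obtain ⟨e, he, hd⟩ := (mod_mem hpp.pos).1 hmem
    exact hS q hq e he p hpp ((hpY p).2 (Pr_mem.1 hp).1.2) hd
  have hmaps : ∀ q ∈ S, q % m ∈ adm E m Y := by
    intro q hq
    unfold adm
    rw [mem_filter, mem_range]
    refine ⟨Nat.mod_lt _ hm, fun p hp => ?_⟩
    unfold Pm at hp
    rw [mem_filter] at hp
    rw [Nat.mod_mod_of_dvd _ hp.2]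
    exact hres q hq p hp.1
  have hadmne : (adm E m Y).Nonempty := by
    obtain ⟨q, hq⟩ := hSne
    exact ⟨_, hmaps q hq⟩
  have hadm0 : (0 : ℝ) < (adm E m Y).card := by exact_mod_cast hadmne.card_pos
  obtain ⟨b, hb, hbS⟩ : ∃ b ∈ adm E m Y,
      (S.card : ℝ) / (adm E m Y).card ≤ ((S.filter (fun n => n % m = b)).card : ℝ) := by
    apply exists_le_of_sum_le hadmne
    rw [sum_const, nsmul_eq_mul]
    have h1 := card_eq_sum_card_fiberwise hmaps
    have h2 : (S.card : ℝ) = ∑ b ∈ adm E m Y, ((S.filter (fun n => n % m = b)).card : ℝ) := by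
      exact_mod_cast h1
    rw [← h2, mul_div_cancel₀]
    exact hadm0.ne'
  set Sb := S.filter (fun n => n % m = b) with hSb
  set T := Sb.image (fun n => n / m + 1) with hT
  have hTc : T.card = Sb.card := by
    apply card_image_of_injOn
    intro n hn n' hn' h
    rw [mem_coe, hSb, mem_filter] at hn hn'
    have h1 : n / m = n' / m := by
      have : n / m + 1 = n' / m + 1 := h
      omega
    rw [← Nat.div_add_mod n m, ← Nat.div_add_mod n' m, h1, hn.2, hn'.2]
  have hTA : T ⊆ Ioc (A / m) (A / m + X) := by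
    intro t ht
    rw [hT, mem_image] at ht
    obtain ⟨n, hn, rfl⟩ := ht
    rw [hSb, mem_filter] at hn
    have h1 := mem_Ioc.1 (hSA hn.1)
    rw [mem_Ioc]
    have h2 : A / m ≤ n / m := Nat.div_le_div_right h1.1.le
    have h3 : n / m ≤ (A + L) / m := Nat.div_le_div_right h1.2
    have h4 : (A + L) / m < A / m + L / m + 2 := by
      rw [Nat.div_lt_iff_lt_mul hm]
      have h5 := Nat.div_add_mod A m
      have h6 := Nat.div_add_mod L m
      have h7 := Nat.mod_lt A hm
      have h8 := Nat.mod_lt L hm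
      have h9 : (A / m + L / m + 2) * m = m * (A / m) + m * (L / m) + 2 * m := by ring
      rw [h9]
      generalize m * (A / m) = u at *
      generalize m * (L / m) = v at *
      generalize A % m = u' at *
      generalize L % m = v' at *
      omega
    rw [hX]
    generalize A / m = u at *
    generalize L / m = v at *
    generalize n / m = n' at *
    generalize (A + L) / m = m' at *
    omega
  -- the classes
  have hZ : ∀ p : ℕ, p.Prime → (p : ℝ) ≤ (X : ℝ) ^ κ →
      (Zc E m b p).card ≤ E.card ∧ (Zc E m b p).card < p ∧ ∀ c ∈ Zc E m b p, c < p := by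
    intro p hp hpX
    refine ⟨?_, ?_, fun c hc => Zc_lt hc⟩
    · rw [Zc_card hp]
      split_ifs
      · exact Nat.zero_le _
      · exact Z0_card_le hp.pos
    · rw [Zc_card hp]
      split_ifs
      · exact hp.pos
      · obtain ⟨q, hq⟩ := hSne
        have h1 := hres q hq p (Pr_mem.2 ⟨⟨hp.pos, (hpY p).1 hpX⟩, hp⟩)
        have h2 : Z0 E p ⊂ range p := by
          refine ⟨fun c hc => mem_range.2 (Z0_lt hc), fun hcon => ?_⟩
          exact h1 (hcon (mem_range.2 (Nat.mod_lt _ hp.pos)))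
        have := card_lt_card h2
        rwa [card_range] at this
  have hTZ : ∀ t ∈ T, ∀ p : ℕ, p.Prime → (p : ℝ) ≤ (X : ℝ) ^ κ → t % p ∉ Zc E m b p := by
    intro t ht p hp hpX hmem
    rw [hT, mem_image] at ht
    obtain ⟨n, hn, rfl⟩ := ht
    rw [hSb, mem_filter] at hn
    unfold Zc at hmem
    split_ifs at hmem with hdv
    · simp at hmem
    · rw [mem_filter] at hmem
      have h4 := hres n hn.1 p (Pr_mem.2 ⟨⟨hp.pos, (hpY p).1 hpX⟩, hp⟩)
      apply h4
      have h6 : (b + m * ((n / m + 1) % p + (p - 1))) % p = n % p := by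
        have e1 : b + m * ((n / m + 1) % p + (p - 1)) ≡ b + m * ((n / m + 1) + (p - 1)) [MOD p] :=
          Nat.ModEq.add_left _ (Nat.ModEq.mul_left _ (Nat.ModEq.add_right _ (Nat.mod_modEq _ _)))
        have e2 : b + m * ((n / m + 1) + (p - 1)) = n + m * p := by
          have e3 := Nat.div_add_mod n m
          rw [hn.2] at e3
          have e4 : (n / m + 1) + (p - 1) = n / m + p := by
            have := hp.pos
            omega
          rw [e4, mul_add]
          omega
        rw [e2] at e1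
        have e3 : n + m * p ≡ n [MOD p] := by
          unfold Nat.ModEq
          rw [Nat.add_mul_mod_self_right]
        exact e1.trans e3
      rw [← h6]
      exact hmem.2
  have hTcard : δ * X * VV (Zc E m b) 0 Y ≤ T.card := by
    rw [hTc]
    refine le_trans ?_ hbS
    rw [le_div_iff₀ hadm0]
    refine le_trans ?_ hcard
    have h1 := adm_VV E (m := m) (b := b) (Y := Y) hm
    have h2 := hC Y hY
    have h3 : (X : ℝ) * m ≤ 3 * L := by
      have h4 : X * m ≤ 3 * L := by
        have h5 := Nat.div_mul_le_self L m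
        calc X * m = L / m * m + 2 * m := by rw [hX]; ring
          _ ≤ 3 * L := by omega
      exact_mod_cast h4
    have hVE0 : 0 ≤ VE E Y := by
      unfold VE
      apply prod_nonneg
      intro p hp
      have hp0 := (Pr_prime hp).pos
      have h6 : (Z0 E p).card ≤ p := by
        have : Z0 E p ⊆ range p := fun c hc => mem_range.2 (Z0_lt hc)
        have := card_le_card this
        rwa [card_range] at this
      have h7 : ((Z0 E p).card : ℝ) / p ≤ 1 := by
        rw [div_le_one (by exact_mod_cast hp0)]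
        exact_mod_cast h6
      linarith
    calc δ * X * VV (Zc E m b) 0 Y * (adm E m Y).card
        = δ * X * ((adm E m Y).card * VV (Zc E m b) 0 Y) := by ring
      _ ≤ δ * X * (m * VE E Y) := by
          apply mul_le_mul_of_nonneg_left h1 (by positivity)
      _ = δ * (X * m) * VE E Y := by ring
      _ ≤ δ * (3 * L) * VE E Y := by
          apply mul_le_mul_of_nonneg_right _ hVE0
          exact mul_le_mul_of_nonneg_left h3 hδ.le
      _ ≤ δ * (3 * L) * (C / Real.log Y ^ E.card) := by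
          apply mul_le_mul_of_nonneg_left h2
          positivity
  obtain ⟨a, d, hd1, hd2, had⟩ := hfin X (A / m) hX₀ (Zc E m b) hZ T hTA hTZ hTcard
  have ha1 : 1 ≤ a := by
    have h1 := had 0 hk
    rw [zero_mul, add_zero] at h1
    exact (Nat.zero_le _).trans_lt (mem_Ioc.1 (hTA h1)).1
  refine ⟨b + m * (a - 1), d, hd1, hd2, fun j hj => ?_⟩
  have h1 := had j hj
  rw [hT, mem_image] at h1
  obtain ⟨n, hn, hnj⟩ := h1
  rw [hSb, mem_filter] at hn
  have h2 : b + m * (a - 1) + m * d * j = n := by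
    have e1 := Nat.div_add_mod n m
    rw [hn.2] at e1
    have e2 : n / m = (a - 1) + j * d := by omega
    rw [e2] at e1
    rw [← e1]
    ring
  rw [h2]
  exact hn.1

end Pool.Agent.H52SZ
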