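import Pool.Agent.H52SZ.C

set_option autoImplicit false

/-!
# Szemerédi's theorem for rough constellations: final form
-/

namespace Pool.Agent.H52SZ

open Finset Filter
open Pool.Agent.Y843.HS (Pr VV Pr_mem Pr_prime card_res log_ge card_pull)

/-- progressions with common difference `m d`, `d ≤ (log n) ^ B` -/
theorem exist (E : Finset ℤ) (k : ℕ) (hk : 1 ≤ k) (θ κ ε : ℝ) (hθ : 0 < θ) (hκ : 0 < κ) (hε : 0 < ε) :
    ∃ B : ℕ, ∀ᶠ n : ℕ in atTop, ∀ A L m : ℕ, 1 ≤ m → (n : ℝ) ^ θ * m ≤ L → L ≤ n →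
      ∀ S : Finset ℕ, S ⊆ Ioc A (A + L) → (∀ q ∈ S, Rough E ((n : ℝ) ^ κ) q) →
        ε * (L / Real.log n ^ E.card) ≤ S.card →
        ∃ q d : ℕ, 1 ≤ d ∧ (d : ℝ) ≤ Real.log n ^ B ∧ ∀ j < k, q + m * d * j ∈ S := by
  obtain ⟨C, hC0, hC⟩ := VE_le E
  set κ' := κ / 2 with hκ'
  have hκ'0 : 0 < κ' := by positivity
  set c := κ' * θ / 2 with hc
  have hc0 : 0 < c := by positivity
  set δ := ε * c ^ E.card / (3 * C) with hδ
  have hδ0 : 0 < δ := by positivity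
  obtain ⟨B, X₀, hfin⟩ := Pool.Agent.Y843.HS.fin k E.card κ' δ hκ'0 hδ0
  refine ⟨B + 1, ?_⟩
  have t1 : Tendsto (fun n : ℕ => (n : ℝ) ^ θ) atTop atTop :=
    (tendsto_rpow_atTop hθ).comp tendsto_natCast_atTop_atTop
  have t2 : Tendsto (fun n : ℕ => (n : ℝ) ^ c) atTop atTop :=
    (tendsto_rpow_atTop hc0).comp tendsto_natCast_atTop_atTop
  have t3 : Tendsto (fun n : ℕ => Real.log (n : ℝ)) atTop atTop :=
    Real.tendsto_log_atTop.comp tendsto_natCast_atTop_atTop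
  filter_upwards [t1.eventually_ge_atTop (max 1 (X₀ : ℝ)), t2.eventually_ge_atTop 4,
    t3.eventually_ge_atTop ((2 : ℝ) ^ B + 1), eventually_ge_atTop 3] with n hn1 hn2 hn3 hn4
  intro A L m hm hmL hLn S hSA hS hcard
  have hn0 : (0 : ℝ) < n := by exact_mod_cast (by omega : 0 < n)
  have hnR1 : (1 : ℝ) ≤ n := by exact_mod_cast (by omega : 1 ≤ n)
  have hm0 : (0 : ℝ) < m := by exact_mod_cast hm
  have hnθ1 : 1 ≤ (n : ℝ) ^ θ := (le_max_left _ _).trans hn1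
  have hmL' : m ≤ L := by
    have : (m : ℝ) ≤ L := by
      calc (m : ℝ) = 1 * m := (one_mul _).symm
        _ ≤ (n : ℝ) ^ θ * m := mul_le_mul_of_nonneg_right hnθ1 hm0.le
        _ ≤ L := hmL
    exact_mod_cast this
  have hL0 : (0 : ℝ) < L := by exact_mod_cast (by omega : 0 < L)
  have hlog0 : 0 < Real.log n := by
    have : (0 : ℝ) < 2 ^ B := by positivity
    linarith
  -- the length of the windows
  have hXlow : (n : ℝ) ^ θ ≤ ((L / m + 2 : ℕ) : ℝ) := by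
    have h1 : (n : ℝ) ^ θ ≤ L / m := by rwa [le_div_iff₀ hm0]
    refine h1.trans ?_
    rw [div_le_iff₀ hm0]
    have h2 := Nat.div_add_mod L m
    have h3 := Nat.mod_lt L hm
    have h4 : L ≤ (L / m + 2) * m := by nlinarith
    exact_mod_cast h4
  have hXup : ((L / m + 2 : ℕ) : ℝ) ≤ (n : ℝ) ^ 2 := by
    have h1 : L / m ≤ L := Nat.div_le_self L m
    have h2 : L / m + 2 ≤ n ^ 2 := by nlinarith
    exact_mod_cast h2
  have hX0 : (0 : ℝ) < ((L / m + 2 : ℕ) : ℝ) := by positivity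
  have hX₀ : X₀ ≤ L / m + 2 := by
    have h1 : (X₀ : ℝ) ≤ ((L / m + 2 : ℕ) : ℝ) := ((le_max_right _ _).trans hn1).trans hXlow
    exact_mod_cast h1
  have hXκ : ((L / m + 2 : ℕ) : ℝ) ^ κ' ≤ (n : ℝ) ^ κ := by
    calc ((L / m + 2 : ℕ) : ℝ) ^ κ' ≤ ((n : ℝ) ^ 2) ^ κ' := Real.rpow_le_rpow hX0.le hXup hκ'0.le
      _ = (n : ℝ) ^ κ := by
          rw [← Real.rpow_natCast, ← Real.rpow_mul hn0.le]
          congr 1
          rw [hκ']; push_cast; ring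
  have hYlow : (n : ℝ) ^ c ≤ (⌊((L / m + 2 : ℕ) : ℝ) ^ κ'⌋₊ : ℝ) := by
    have h1 : ((n : ℝ) ^ θ) ^ κ' ≤ ((L / m + 2 : ℕ) : ℝ) ^ κ' :=
      Real.rpow_le_rpow (by positivity) hXlow hκ'0.le
    have h2 : ((n : ℝ) ^ θ) ^ κ' = (n : ℝ) ^ c * (n : ℝ) ^ c := by
      rw [← Real.rpow_mul hn0.le, ← Real.rpow_add hn0]
      congr 1
      rw [hc]; ring
    have h3 := Nat.lt_floor_add_one (((L / m + 2 : ℕ) : ℝ) ^ κ')
    rw [h2] at h1
    nlinarith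
  have hY3 : 3 ≤ ⌊((L / m + 2 : ℕ) : ℝ) ^ κ'⌋₊ := by
    have h1 : (3 : ℝ) ≤ (⌊((L / m + 2 : ℕ) : ℝ) ^ κ'⌋₊ : ℝ) := by linarith
    exact_mod_cast h1
  have hlogY : c * Real.log n ≤ Real.log (⌊((L / m + 2 : ℕ) : ℝ) ^ κ'⌋₊ : ℝ) := by
    have h1 := Real.log_le_log (by positivity) hYlow
    rwa [Real.log_rpow hn0] at h1
  have hSne : S.Nonempty := by
    rw [← card_pos]
    have h1 : (0 : ℝ) < ε * (L / Real.log n ^ E.card) := by positivity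
    have h2 : (0 : ℝ) < S.card := h1.trans_le hcard
    exact_mod_cast h2
  obtain ⟨q, d, hd1, hd2, hqd⟩ := core E k κ' δ C hC hκ'0 hδ0 hfin hk hm hmL' hX₀ hY3 S hSne hSA
    (fun q hq e he l hl hlX => hS q hq e he l hl (hlX.trans hXκ)) (by
      refine le_trans ?_ hcard
      have h1 : C / Real.log (⌊((L / m + 2 : ℕ) : ℝ) ^ κ'⌋₊ : ℝ) ^ E.card ≤
          C / (c * Real.log n) ^ E.card := by
        apply div_le_div_of_nonneg_left hC0.le (by positivity)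
        exact pow_le_pow_left₀ (by positivity) hlogY _
      calc δ * (3 * L) * (C / Real.log (⌊((L / m + 2 : ℕ) : ℝ) ^ κ'⌋₊ : ℝ) ^ E.card)
          ≤ δ * (3 * L) * (C / (c * Real.log n) ^ E.card) :=
            mul_le_mul_of_nonneg_left h1 (by positivity)
        _ = ε * (L / Real.log n ^ E.card) := by
            rw [hδ, mul_pow]
            field_simp)
  refine ⟨q, d, hd1, hd2.trans ?_, hqd⟩
  have h1 : Real.log ((L / m + 2 : ℕ) : ℝ) ≤ 2 * Real.log n := by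
    have h2 := Real.log_le_log hX0 hXup
    rw [Real.log_pow] at h2
    push_cast at h2 ⊢
    exact h2
  have h0 : 0 ≤ Real.log ((L / m + 2 : ℕ) : ℝ) := Real.log_nonneg (hnθ1.trans hXlow)
  calc Real.log ((L / m + 2 : ℕ) : ℝ) ^ B ≤ (2 * Real.log n) ^ B := pow_le_pow_left₀ h0 h1 B
    _ = 2 ^ B * Real.log n ^ B := mul_pow _ _ _
    _ ≤ Real.log n * Real.log n ^ B := by
        apply mul_le_mul_of_nonneg_right _ (by positivity)
        linarith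
    _ = Real.log n ^ (B + 1) := by rw [pow_succ]; ring

/-- `S` contains a copy `q + m d F` with `1 ≤ d ≤ D` -/
def Copy (F : Finset ℤ) (m : ℕ) (D : ℝ) (S : Finset ℕ) (q : ℕ) : Prop :=
  ∃ d : ℕ, 1 ≤ d ∧ (d : ℝ) ≤ D ∧ ∀ f ∈ F, ∃ s ∈ S, (s : ℤ) = q + m * d * f

lemma Copy.mono {F : Finset ℤ} {m : ℕ} {D : ℝ} {S S' : Finset ℕ} {q : ℕ} (h : Copy F m D S q)
    (hS : S ⊆ S') : Copy F m D S' q := by
  obtain ⟨d, h1, h2, h3⟩ := h
  refine ⟨d, h1, h2, fun f hf => ?_⟩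
  obtain ⟨s, hs, hs2⟩ := h3 f hf
  exact ⟨s, hS hs, hs2⟩

open Classical in
/-- **all but few elements of arbitrary sets of rough constellations** -/
theorem dense (E F : Finset ℤ) (θ κ ε : ℝ) (hθ : 0 < θ) (hκ : 0 < κ) (hε : 0 < ε) :
    ∃ B : ℕ, ∀ᶠ n : ℕ in atTop, ∀ A L m : ℕ, 1 ≤ m → (n : ℝ) ^ θ * m ≤ L → L ≤ n →
      ∀ S : Finset ℕ, S ⊆ Ioc A (A + L) → (∀ q ∈ S, Rough E ((n : ℝ) ^ κ) q) →
        ((S.filter (fun q => ¬ Copy F m (Real.log n ^ B) S q)).card : ℝ) ≤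
          ε * (L / Real.log n ^ E.card) := by
  obtain ⟨M, hM⟩ : ∃ M : ℕ, ∀ f ∈ F, |f| ≤ M := by
    refine ⟨∑ f ∈ F, |f|.toNat, fun f hf => ?_⟩
    have h1 : |f|.toNat ≤ ∑ f ∈ F, |f|.toNat :=
      single_le_sum (f := fun f : ℤ => |f|.toNat) (fun _ _ => Nat.zero_le _) hf
    have h3 : ((|f|.toNat : ℕ) : ℤ) = |f| := Int.toNat_of_nonneg (abs_nonneg _)
    rw [← h3]
    exact_mod_cast h1
  obtain ⟨B, hB⟩ := exist E (2 * M + 1) (by omega) θ κ ε hθ hκ hε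
  refine ⟨B, ?_⟩
  filter_upwards [hB] with n hn
  intro A L m hm hmL hLn S hSA hS
  by_contra hcon
  push Not at hcon
  set T := S.filter (fun q => ¬ Copy F m (Real.log n ^ B) S q) with hT
  obtain ⟨q, d, hd1, hd2, hqd⟩ := hn A L m hm hmL hLn T ((filter_subset _ _).trans hSA)
    (fun q hq => hS q (mem_filter.1 hq).1) hcon.le
  have h1 := hqd M (by omega)
  have h2 := (mem_filter.1 h1).2
  apply h2
  refine ⟨d, hd1, hd2, fun f hf => ?_⟩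
  have h3 := abs_le.1 (hM f hf)
  obtain ⟨j, hj⟩ : ∃ j : ℕ, (j : ℤ) = M + f := ⟨(M + f).toNat, Int.toNat_of_nonneg (by omega)⟩
  refine ⟨q + m * d * j, (mem_filter.1 (hqd j (by omega))).1, ?_⟩
  push_cast
  rw [hj]
  ring

end Pool.Agent.H52SZ
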