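import Pool.Agent.H52SZ.A
import Pool.Agent.Y879.PR.Inst

set_option autoImplicit false

/-!
# Primes `p` in windows for which `p - 2`, `p + 4`, `p + 10` are almost primes: the right order of magnitude
-/

namespace Pool.Agent.H52SZ

open Finset Filter

/-- the shifts of the problem -/
def E4 : Finset ℤ := {-2, 0, 4, 10}

/-- `p` is prime, no `p - 2`, `p`, `p + 4`, `p + 10` has a prime factor `≤ t`, and `(p - 2) (p + 4) (p + 10)` has
at most `R` prime factors, counted with multiplicity -/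
def Q4 (t : ℝ) (R p : ℕ) : Prop :=
  p.Prime ∧ Rough E4 t p ∧ ((p - 2) * (p + 4) * (p + 10)).primeFactorsList.length ≤ R

/-- the pattern -/
def h : Fin 4 → ℕ := ![0, 2, 6, 12]

open Pool.Agent.Y879.PR in
lemma pat_h : Pat2 30 h {11, 17} where
  tup := by
    intro c hc
    rw [Finset.mem_insert, Finset.mem_singleton] at hc
    rcases hc with rfl | rfl
    · exact ⟨sq30, by decide, fun p hp h => pr30 p hp h, by decide, by decide, by norm_num⟩
    · exact ⟨sq30, by decide, fun p hp h => pr30 p hp h, by decide, by decide, by norm_num⟩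
  one := by decide
  lt := by decide
  cls := by
    intro m hm
    have a1 := red m 0 2 (by norm_num) (hm 2 Nat.prime_two (by norm_num) 0)
    have a2 := red m 0 3 (by norm_num) (hm 3 Nat.prime_three (by norm_num) 0)
    have a3 := red m 2 3 (by norm_num) (hm 3 Nat.prime_three (by norm_num) 1)
    have a4 := red m 0 5 (by norm_num) (hm 5 Nat.prime_five (by norm_num) 0)
    have a5 := red m 2 5 (by norm_num) (hm 5 Nat.prime_five (by norm_num) 1)
    have a6 := red m 6 5 (by norm_num) (hm 5 Nat.prime_five (by norm_num) 2)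
    have key : ∀ s ∈ Finset.range 30, (¬ 2 ∣ s + 0 ∧ ¬ 3 ∣ s + 0 ∧ ¬ 3 ∣ s + 2 ∧ ¬ 5 ∣ s + 0 ∧ ¬ 5 ∣ s + 2 ∧ ¬ 5 ∣ s + 6) → s ∈ ({11, 17} : Finset ℕ) := by decide
    exact key _ (Finset.mem_range.2 (Nat.mod_lt _ (by norm_num))) ⟨a1, a2, a3, a4, a5, a6⟩
  dif := by
    intro p hp hM i j hij
    apply dif30 p hp hM
    revert i j
    decide
  zero := ⟨0, rfl⟩
  pos := by norm_num

lemma one_sub_ge3 {x : ℝ} (h0 : 0 ≤ x) (h1 : x ≤ 2 / 3) : Real.exp (-(x + 3 * x ^ 2)) ≤ 1 - x := by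
  have h2 : 1 + (x + 3 * x ^ 2) ≤ Real.exp (x + 3 * x ^ 2) := by
    have := Real.add_one_le_exp (x + 3 * x ^ 2)
    linarith
  rw [Real.exp_neg]
  have h3 : 0 < 1 + (x + 3 * x ^ 2) := by positivity
  have h4 : (Real.exp (x + 3 * x ^ 2))⁻¹ ≤ (1 + (x + 3 * x ^ 2))⁻¹ := inv_anti₀ h3 h2
  refine h4.trans ?_
  rw [inv_le_iff_one_le_mul₀ h3]
  nlinarith [mul_nonneg (sq_nonneg x) (sub_nonneg.2 h1)]

/-- lower bound for the product -/
theorem PW_low (r : ℕ) (hr : 1 ≤ r) : ∃ c : ℝ, 0 < c ∧ ∀ᶠ n : ℕ in atTop,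
    c / Real.log n ^ 3 ≤ Pool.Agent.Y879.PR.PW 30 4 n r := by
  obtain ⟨C, hC⟩ := Pool.Agent.Helper256.KM.mertens_inv
  have hs : Summable (fun n : ℕ => 1 / (n : ℝ) ^ 2) := Real.summable_one_div_nat_pow.2 (by norm_num)
  set K : ℝ := ∑' n : ℕ, 1 / (n : ℝ) ^ 2 with hK
  refine ⟨Real.exp (-(3 * C + 48 * K)), Real.exp_pos _, ?_⟩
  have hr0 : (0 : ℝ) < 1 / (r : ℝ) := by
    have : (0 : ℝ) < r := by exact_mod_cast hr
    positivity
  have t1 : Tendsto (fun n : ℕ => (n : ℝ) ^ (1 / (r : ℝ))) atTop atTop :=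
    (tendsto_rpow_atTop hr0).comp tendsto_natCast_atTop_atTop
  filter_upwards [t1.eventually_ge_atTop 3, eventually_ge_atTop 3] with n hn1 hn3
  have hnR : (1 : ℝ) ≤ n := by exact_mod_cast (by omega : 1 ≤ n)
  set z := ⌊(n : ℝ) ^ (1 / (r : ℝ))⌋₊ with hz
  have hz3 : 3 ≤ z := Nat.le_floor (by exact_mod_cast hn1)
  have hzn : z ≤ n := by
    have h1 : (z : ℝ) ≤ n := by
      refine (Nat.floor_le (by positivity)).trans ?_
      calc (n : ℝ) ^ (1 / (r : ℝ)) ≤ (n : ℝ) ^ (1 : ℝ) := by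
            apply Real.rpow_le_rpow_of_exponent_le hnR
            rw [div_le_one (by exact_mod_cast hr)]
            exact_mod_cast hr
        _ = n := Real.rpow_one _
    exact_mod_cast h1
  have hlz : 0 < Real.log z := Real.log_pos (by exact_mod_cast (by omega : 1 < z))
  have hlzn : Real.log z ≤ Real.log n :=
    Real.log_le_log (by exact_mod_cast (by omega : 0 < z)) (by exact_mod_cast hzn)
  have key : ∀ p ∈ (Icc 1 z).filter Nat.Prime, Real.exp (-(3 * (1 / (p : ℝ)) + 48 * (1 / (p : ℝ) ^ 2))) ≤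
      (1 - (Pool.Agent.Y879.PR.pnu 30 4 p : ℝ) / p) / (1 - 1 / (p : ℝ)) := by
    intro p hp
    have hpp := (mem_filter.1 hp).2
    have hp2 : (2 : ℝ) ≤ p := by exact_mod_cast hpp.two_le
    have hp0 : (0 : ℝ) < p := by linarith
    have h1p : 1 / (p : ℝ) ≤ 1 / 2 := one_div_le_one_div_of_le (by norm_num) hp2
    have h1p0 : 0 < 1 / (p : ℝ) := by positivity
    have hden : 0 < 1 - 1 / (p : ℝ) := by linarith
    have hden2 : 1 - 1 / (p : ℝ) ≤ Real.exp (-(1 / (p : ℝ))) := by
      have := Real.add_one_le_exp (-(1 / (p : ℝ)))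
      linarith
    have hsq : 0 ≤ 1 / (p : ℝ) ^ 2 := by positivity
    rw [le_div_iff₀ hden]
    refine (mul_le_mul_of_nonneg_left hden2 (Real.exp_pos _).le).trans ?_
    rw [← Real.exp_add]
    unfold Pool.Agent.Y879.PR.pnu
    split_ifs with hd
    · simp only [Nat.cast_zero, zero_div, sub_zero]
      rw [Real.exp_le_one_iff]
      linarith
    · have hp7 : 7 ≤ p := by
        by_contra hcon
        have := hpp.two_le
        have hlt : p < 7 := by omega
        interval_cases p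
        · exact hd (by norm_num)
        · exact hd (by norm_num)
        · exact absurd hpp (by norm_num)
        · exact hd (by norm_num)
        · exact absurd hpp (by norm_num)
      have hp7' : (7 : ℝ) ≤ p := by exact_mod_cast hp7
      have hx : (4 : ℝ) / p ≤ 2 / 3 := by
        rw [div_le_div_iff₀ hp0 (by norm_num)]
        linarith
      have h2 := one_sub_ge3 (x := 4 / (p : ℝ)) (by positivity) hx
      push_cast
      refine le_trans (le_of_eq ?_) h2
      congr 1
      field_simp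
      ring
  unfold Pool.Agent.Y879.PR.PW
  have h1 : ∏ p ∈ (Icc 1 z).filter Nat.Prime, Real.exp (-(3 * (1 / (p : ℝ)) + 48 * (1 / (p : ℝ) ^ 2))) ≤
      ∏ p ∈ (Icc 1 z).filter Nat.Prime,
        (1 - (Pool.Agent.Y879.PR.pnu 30 4 p : ℝ) / p) / (1 - 1 / (p : ℝ)) :=
    prod_le_prod (fun _ _ => (Real.exp_pos _).le) key
  refine le_trans ?_ h1
  rw [← Real.exp_sum, sum_neg_distrib, sum_add_distrib, ← mul_sum, ← mul_sum]
  have h2 := (abs_le.1 (hC z hz3)).2
  have h3 : ∑ p ∈ (Icc 1 z).filter Nat.Prime, 1 / (p : ℝ) ^ 2 ≤ K :=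
    hs.sum_le_tsum _ (fun _ _ => by positivity)
  have h4 : Real.exp (-(3 * C + 48 * K)) / Real.log z ^ 3 =
      Real.exp (-(3 * (Real.log (Real.log z) + C) + 48 * K)) := by
    have e1 : Real.log z ^ 3 = Real.exp (3 * Real.log (Real.log z)) := by
      have := Real.exp_nat_mul (Real.log (Real.log z)) 3
      rw [Real.exp_log hlz] at this
      rw [← this]
      norm_num
    rw [e1, ← Real.exp_sub]
    congr 1
    ring
  calc Real.exp (-(3 * C + 48 * K)) / Real.log n ^ 3
      ≤ Real.exp (-(3 * C + 48 * K)) / Real.log z ^ 3 := by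
        apply div_le_div_of_nonneg_left (Real.exp_pos _).le (by positivity)
        exact pow_le_pow_left₀ hlz.le hlzn 3
    _ = Real.exp (-(3 * (Real.log (Real.log z) + C) + 48 * K)) := h4
    _ ≤ _ := by
        apply Real.exp_le_exp.2
        linarith

/-- the number of prime factors of the product -/
lemma length_le {p r : ℕ} (hp : 2 < p) (h1 : (p - 2).primeFactorsList.length ≤ r)
    (h2 : (p + 4).primeFactorsList.length ≤ r) (h3 : (p + 10).primeFactorsList.length ≤ r) :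
    ((p - 2) * (p + 4) * (p + 10)).primeFactorsList.length ≤ 3 * r := by
  rw [← ArithmeticFunction.cardFactors_apply] at h1 h2 h3 ⊢
  rw [ArithmeticFunction.cardFactors_mul (mul_ne_zero (by omega) (by omega)) (by omega),
    ArithmeticFunction.cardFactors_mul (by omega) (by omega)]
  omega

open Classical in
/-- **primes with almost prime companions in windows, right order of magnitude** -/
theorem lowQ (δ : ℝ) (hδ : 0 < δ) : ∃ κ : ℝ, 0 < κ ∧ ∃ (R : ℕ) (c : ℝ), 0 < c ∧ ∀ᶠ n : ℕ in atTop,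
    ∀ A L : ℕ, 29 * n ≤ A ^ 2 → (A + L) ^ 2 ≤ 30 * n → δ * √n ≤ L →
      c * (L / Real.log n ^ 4) ≤ (((Ioc A (A + L)).filter (fun p => Q4 ((n : ℝ) ^ κ) R p)).card : ℝ) := by
  obtain ⟨r, hr, H⟩ := Pool.Agent.Y879.PR.pat_main pat_h ⟨11, by simp⟩ (1 / 2) (min (δ / 6) 1)
    (by norm_num) (by positivity) (min_le_right _ _) 1 (1 / 2) (by norm_num) (by norm_num)
  obtain ⟨N₀, H⟩ := H r le_rfl
  obtain ⟨c, hc, hPW⟩ := PW_low r (by omega)
  refine ⟨1 / (r : ℝ), by
    have : (0 : ℝ) < r := by exact_mod_cast (by omega : 0 < r)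
    positivity, 3 * r, c / 30, by positivity, ?_⟩
  filter_upwards [hPW, eventually_ge_atTop N₀, eventually_ge_atTop 100] with n hPWn hn hn100
  obtain ⟨H1, -, H3, -, H5, H6⟩ := H n hn
  intro A L hA hL hθL
  have hnR : (100 : ℝ) ≤ n := by exact_mod_cast hn100
  have hA2 : 3 ≤ A := by nlinarith
  have hAL : A + L ≤ Nat.sqrt (30 * n) := by
    rw [Nat.le_sqrt']
    exact hL
  have hs1 : (n : ℝ) ^ (1 / 2 : ℝ) ≤ (Nat.sqrt (30 * n) : ℕ) := by
    rw [← Real.sqrt_eq_rpow]
    have h2 : Nat.sqrt n + 1 ≤ Nat.sqrt (30 * n) := by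
      rw [Nat.le_sqrt']
      have h3 : Nat.sqrt n ^ 2 ≤ n := Nat.sqrt_le' n
      nlinarith
    have h3 : √(n : ℝ) ≤ Nat.sqrt n + 1 := by
      apply Real.sqrt_le_iff.2
      refine ⟨by positivity, ?_⟩
      exact_mod_cast (Nat.lt_succ_sqrt' n).le
    refine h3.trans ?_
    exact_mod_cast h2
  have hs2 : ((Nat.sqrt (30 * n) : ℕ) : ℝ) ≤ 6 * √n := by
    have h1 : ((Nat.sqrt (30 * n) : ℕ) : ℝ) ^ 2 ≤ 30 * n := by exact_mod_cast Nat.sqrt_le' (30 * n)
    have h2 : (6 * √(n : ℝ)) ^ 2 = 36 * n := by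
      rw [mul_pow, Real.sq_sqrt (by positivity)]
      norm_num
    apply (pow_le_pow_iff_left₀ (by positivity) (by positivity) two_ne_zero).1
    rw [h2]
    linarith
  have hδ' : min (δ / 6) 1 * ((Nat.sqrt (30 * n) : ℕ) : ℝ) ≤ L := by
    calc min (δ / 6) 1 * ((Nat.sqrt (30 * n) : ℕ) : ℝ) ≤ δ / 6 * (6 * √n) := by
          apply mul_le_mul (min_le_left _ _) hs2 (by positivity) (by positivity)
      _ = δ * √n := by ring
      _ ≤ L := hθL
  obtain ⟨G1, -⟩ := H6 1 (Nat.sqrt (30 * n)) hs1 (A - 2) L hδ' (by omega)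
  -- the lower bound
  have hlogX : Real.log ((Nat.sqrt (30 * n) : ℕ) : ℝ) ≤ Real.log n := by
    apply Real.log_le_log
    · have : (1 : ℝ) ≤ (n : ℝ) ^ (1 / 2 : ℝ) := Real.one_le_rpow (by linarith) (by norm_num)
      linarith
    · have h1 : Nat.sqrt (30 * n) ≤ n := by
        have h2 : (Nat.sqrt (30 * n)) ^ 2 ≤ 30 * n := Nat.sqrt_le' _
        by_contra hcon
        push Not at hcon
        nlinarith
      exact_mod_cast h1
  have hlogn : 0 < Real.log n := Real.log_pos (by linarith)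
  have hC : ((({11, 17} : Finset ℕ).card : ℕ) : ℝ) = 2 := by norm_num
  rw [hC] at G1
  have hL0 : (0 : ℝ) ≤ L := Nat.cast_nonneg L
  have G2 := (abs_le.1 G1).1
  set PPc := ((Pool.Agent.Y879.PR.PP h n r 1 (A - 2) L).card : ℝ) with hPPc
  have hPPc0 : 0 ≤ PPc := Nat.cast_nonneg _
  have G3 : L / 30 * (c / Real.log n ^ 3) ≤ PPc * Real.log n := by
    have h1 : (L : ℝ) / 30 * (c / Real.log n ^ 3) ≤ L / 30 * Pool.Agent.Y879.PR.PW 30 4 n r :=
      mul_le_mul_of_nonneg_left hPWn (by positivity)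
    have h2 : PPc * Real.log ((Nat.sqrt (30 * n) : ℕ) : ℝ) ≤ PPc * Real.log n :=
      mul_le_mul_of_nonneg_left hlogX hPPc0
    push_cast at G2
    linarith
  have G4 : c / 30 * (L / Real.log n ^ 4) ≤ PPc := by
    have h1 : c / 30 * (L / Real.log n ^ 4) = L / 30 * (c / Real.log n ^ 3) / Real.log n := by
      field_simp
    rw [h1, div_le_iff₀ hlogn]
    exact G3
  refine G4.trans ?_
  rw [hPPc, Nat.cast_le]
  apply card_le_card_of_injOn (fun m => m + 2)
  · intro m hm
    unfold Pool.Agent.Y879.PR.PP at hm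
    rw [mem_coe, mem_filter, mem_Ioc] at hm
    obtain ⟨⟨hm1, hm2⟩, hmp, hPG⟩ := hm
    have e2 : h 1 = 2 := rfl
    rw [e2] at hmp
    rw [mem_coe, mem_filter, mem_Ioc]
    beta_reduce
    have hmn : m ≤ n := by
      have h1 : m + 2 ≤ A + L := by omega
      have h2 : (m + 2) ^ 2 ≤ 30 * n := (Nat.pow_le_pow_left h1 2).trans hL
      nlinarith
    have hlen := H1 m hmn hPG
    refine ⟨⟨by omega, by omega⟩, hmp, ?_, ?_⟩
    · intro e he l hl hln hd
      unfold E4 at he
      simp only [mem_insert, mem_singleton] at he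
      rcases he with rfl | rfl | rfl | rfl
      · apply hPG l hl hln 0
        have : ((m + h 0 : ℕ) : ℤ) = ((m + 2 : ℕ) : ℤ) + -2 := by
          have e0 : h 0 = 0 := rfl
          rw [e0]; push_cast; ring
        have h3 : (l : ℤ) ∣ ((m + h 0 : ℕ) : ℤ) := by rw [this]; exact hd
        exact_mod_cast h3
      · apply hPG l hl hln 1
        have : ((m + h 1 : ℕ) : ℤ) = ((m + 2 : ℕ) : ℤ) + 0 := by
          rw [e2]; push_cast; ring
        have h3 : (l : ℤ) ∣ ((m + h 1 : ℕ) : ℤ) := by rw [this]; exact hd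
        exact_mod_cast h3
      · apply hPG l hl hln 2
        have : ((m + h 2 : ℕ) : ℤ) = ((m + 2 : ℕ) : ℤ) + 4 := by
          have e0 : h 2 = 6 := rfl
          rw [e0]; push_cast; ring
        have h3 : (l : ℤ) ∣ ((m + h 2 : ℕ) : ℤ) := by rw [this]; exact hd
        exact_mod_cast h3
      · apply hPG l hl hln 3
        have : ((m + h 3 : ℕ) : ℤ) = ((m + 2 : ℕ) : ℤ) + 10 := by
          have e0 : h 3 = 12 := rfl
          rw [e0]; push_cast; ring
        have h3 : (l : ℤ) ∣ ((m + h 3 : ℕ) : ℤ) := by rw [this]; exact hd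
        exact_mod_cast h3
    · apply length_le (by omega)
      · have := hlen 0
        have e0 : m + h 0 = m + 2 - 2 := by
          have e0 : h 0 = 0 := rfl
          rw [e0]; omega
        rwa [e0] at this
      · have := hlen 2
        have e0 : m + h 2 = m + 2 + 4 := by
          have e0 : h 2 = 6 := rfl
          rw [e0]
        rwa [e0] at this
      · have := hlen 3
        have e0 : m + h 3 = m + 2 + 10 := by
          have e0 : h 3 = 12 := rfl
          rw [e0]
        rwa [e0] at this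
  · intro a _ b _ hab
    have : a + 2 = b + 2 := hab
    omega

end Pool.Agent.H52SZ
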